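import Pool.Agent.X288.DM.Main

/-!
# Double Markovian correlation models of full dimension are smooth

Let `P = E_G ∩ E_H`. A correlation matrix `σ` whose inverse vanishes at the non-edges of `G` is the
positive definite completion of maximal determinant of its entries at the edges of `G`. So the
points of `M₁(G, H)` are the completions `f s` of those `s ∈ ℝ^P` for which (with zeros at
`E_G \ E_H`) a positive definite completion exists and the completion of maximal determinant
vanishes at the non-edges of `G` which are not edges of `H`. The set `S` of all completable `s` is
open and convex and `f` is real analytic on it (implicit function theorem). If the model has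
dimension `|P|` then the analytic functions `s ↦ (f s) i j` vanish on an open subset of `S`, so they
vanish on all of `S`, and the model is the graph of `f` over `S`.
-/

set_option autoImplicit false

open scoped ContDiff
open Pool.Agent.X288.DM

namespace Pool.Agent.Results.MP_0a1f67_ag.FullDimensionSmooth

open Classical in
/-- **The theorem.** If `M₁(G, H)` has dimension `|E_G ∩ E_H|` (it contains an immersed piece of
this dimension) then there are a nonempty open convex set `S` in the space of functions on
`E_G ∩ E_H` and a real analytic map `f` on `S` such that `M₁(G, H) = f(S)` and the entries of `f s`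
at `E_G ∩ E_H` are the entries of `s`. So the model is the graph of a real analytic map over an open
convex set, in particular a connected smooth embedded submanifold. Moreover its Zariski closure is
irreducible. -/
theorem result (n : ℕ) (G H : SimpleGraph (Fin n))
    (hdim : HasPiece (Model G H) (G ⊓ H).edgeSet.ncard) :
    ∃ (S : Set ((G ⊓ H).edgeSet → ℝ)) (f : ((G ⊓ H).edgeSet → ℝ) → Fin n → Fin n → ℝ),
      IsOpen S ∧ Convex ℝ S ∧ S.Nonempty ∧ ContDiffOn ℝ ω f S ∧
      (∀ s ∈ S, ∀ i j (h : (G ⊓ H).Adj i j), f s i j = s ⟨s(i, j), h⟩) ∧
      Model G H = f '' S ∧ ZariskiIrreducible (Model G H) := by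
  have h : (G ⊓ H).edgeSet.ncard = Fintype.card (G ⊓ H).edgeSet := by
    rw [Set.ncard_eq_toFinset_card', Set.toFinset_card]
  rw [h] at hdim
  exact main G H hdim

end Pool.Agent.Results.MP_0a1f67_ag.FullDimensionSmooth
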