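import Mathlib

/-!
# MP_0a1f67_ag, Q2: smooth double Markovian correlation models have irreducible Zariski closure

We answer Q2 positively: for all graphs `G`, `H` on `n` vertices, if `M₁(G,H)` is a smooth embedded
submanifold then its Zariski closure is irreducible. It is enough that `M₁(G,H)` is smooth near
the identity matrix, and then it is a connected smooth submanifold of dimension `|E_G ∩ E_H|`.
(Q1 is answered by the hand-in `FullDimensionSmooth`; the proof below is self-contained.)

## Proof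

* If `M₁(G,H)` is a smooth submanifold near `I`, its tangent space at `I` contains
  `E_{ij} + E_{ji}` for each common edge `ij` (for small `t` the matrix `I + t (E_{ij} + E_{ji})` is
  in `M₁(G,H)`, `line_mem`); so its dimension is at least `|E_G ∩ E_H|` (`dim_of_smooth`).

Let `G'` be the graph whose non-edges are the non-edges of `G` which are edges of `H`, so that
`G' ∪ H = K_n` and `M₁(G,H) ⊆ M₁(G',H) =: N`. The matrices of `N` are those with unit diagonal,
supported on `H`, whose inverse vanishes at the edges of `H` which are not edges of `G`.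

* A matrix of `N` is determined by its entries at the common edges `E_G ∩ E_H`: for `A, B ∈ N`
  with the same such entries `tr ((B - A) (A⁻¹ - B⁻¹)) = 0`, which forces `A = B` (`uniq`).
  The same trace computation shows that the derivative of the coordinate map
  `x ↦ ((x_e)_{e ∈ E_G ∩ E_H}, (S(x)⁻¹)_e, e ∈ E_H \ E_G)` is injective (`dPhi_inj`), so by the
  analytic inverse function theorem `N` is the graph of a real analytic map
  `ψ : C → N` on an open set `C ⊆ ℝ^{E_G ∩ E_H}` (`local_section`, `psi_analytic`).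
* `C` is star-shaped about `0` (`N_scale`): for `x ∈ C` and `0 ≤ t ≤ 1` the matrix
  `(1-t) I + t ψ(x)` is positive definite; maximising the determinant over the positive
  semidefinite matrices with the same entries outside `E_H \ E_G` gives a matrix of `N` with
  parameter `t x` (`exist`). So `C` is connected.
* `M₁(G,H)` is the set of `ψ(a)`, `a ∈ C`, at which the analytic functions
  `a ↦ (ψ(a)⁻¹)_{ij}`, `ij` an edge of neither graph, vanish. Since its dimension is
  `|E_G ∩ E_H|`, these functions vanish on a non-empty open subset of `C` (`near_zero`), hence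
  identically by the identity theorem, so that `M₁(G,H) = ψ(C)` is a connected analytic
  submanifold. If a product `f g` of polynomials vanishes on `ψ(C)`, then the identity theorem on
  the connected set `C` shows that `f` or `g` vanishes on `ψ(C)`.
-/

set_option autoImplicit false
namespace Pool.Agent.Results.MP_0a1f67_ag.SmoothIrreducible
open Matrix
open scoped MatrixOrder

lemma trace_zero {n : ℕ} (X K K' : Matrix (Fin n) (Fin n) ℝ) (hX : Xᵀ = X) (hK : K.PosDef)
    (hK' : K'.PosDef) (h : (X * K * X * K').trace = 0) : X = 0 := by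
  obtain ⟨D, hD⟩ := CStarAlgebra.nonneg_iff_eq_star_mul_self.mp hK'.posSemidef.nonneg
  rw [Matrix.star_eq_conjTranspose, Matrix.conjTranspose_eq_transpose_of_trivial] at hD
  have h1 : ((D * X) * K * (D * X)ᵀ).trace = 0 := by
    rw [← h, hD, Matrix.transpose_mul, hX]
    have e1 : D * X * K * (X * Dᵀ) = D * (X * K * X * Dᵀ) := by simp only [Matrix.mul_assoc]
    have e2 : X * K * X * (Dᵀ * D) = (X * K * X * Dᵀ) * D := by simp only [Matrix.mul_assoc]
    rw [e1, e2, Matrix.trace_mul_comm]
  have h2 : ∀ i, ((D * X) * K * (D * X)ᵀ) i i = (D * X) i ⬝ᵥ (K *ᵥ (D * X) i) := by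
    intro i
    rw [Matrix.mul_assoc, Matrix.mul_apply]
    simp only [dotProduct, Matrix.mulVec, Matrix.mul_apply, Matrix.transpose_apply]
  have h3 : ∀ i, 0 ≤ (D * X) i ⬝ᵥ (K *ᵥ (D * X) i) := by
    intro i
    have := hK.posSemidef.dotProduct_mulVec_nonneg ((D * X) i)
    simpa using this
  have h4 : ∀ i, (D * X) i = 0 := by
    intro i
    by_contra hne
    have hpos := hK.dotProduct_mulVec_pos hne
    have hpos' : 0 < (D * X) i ⬝ᵥ (K *ᵥ (D * X) i) := by simpa using hpos
    have : 0 < ((D * X) * K * (D * X)ᵀ).trace := by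
      rw [Matrix.trace]
      apply Finset.sum_pos'
      · intro j _
        simp only [Matrix.diag_apply]
        rw [h2]; exact h3 j
      · exact ⟨i, Finset.mem_univ _, by simp only [Matrix.diag_apply]; rw [h2]; exact hpos'⟩
    linarith
  have h5 : D * X = 0 := by
    ext i j
    exact congrFun (h4 i) j
  have h6 : K' * X = 0 := by rw [hD, Matrix.mul_assoc, h5, Matrix.mul_zero]
  have hdet : IsUnit K'.det := hK'.det_pos.ne'.isUnit
  calc X = K'⁻¹ * (K' * X) := by rw [Matrix.nonsing_inv_mul_cancel_left _ _ hdet]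
    _ = 0 := by rw [h6, Matrix.mul_zero]

lemma psymm {n : ℕ} {A : Matrix (Fin n) (Fin n) ℝ} (hA : A.PosDef) : Aᵀ = A := by
  have := hA.1
  rwa [Matrix.IsHermitian, Matrix.conjTranspose_eq_transpose_of_trivial] at this

lemma tr_mul_zero {n : ℕ} (X Y : Matrix (Fin n) (Fin n) ℝ) (h : ∀ i j, X i j = 0 ∨ Y j i = 0) :
    (X * Y).trace = 0 := by
  rw [Matrix.trace]
  apply Finset.sum_eq_zero
  intro i _
  rw [Matrix.diag_apply, Matrix.mul_apply]
  apply Finset.sum_eq_zero
  intro j _
  rcases h i j with h | h <;> rw [h] <;> ring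

lemma uniq {n : ℕ} (A B : Matrix (Fin n) (Fin n) ℝ) (hA : A.PosDef) (hB : B.PosDef)
    (h : ∀ i j, A i j = B i j ∨ (A⁻¹ j i = 0 ∧ B⁻¹ j i = 0)) : A = B := by
  have hdA : IsUnit A.det := hA.det_pos.ne'.isUnit
  have hdB : IsUnit B.det := hB.det_pos.ne'.isUnit
  have h0 : ((B - A) * (A⁻¹ - B⁻¹)).trace = 0 := by
    apply tr_mul_zero
    intro i j
    rcases h i j with h | ⟨h1, h2⟩
    · left; rw [Matrix.sub_apply, h, sub_self]
    · right; rw [Matrix.sub_apply, h1, h2, sub_self]
  have h1 : A⁻¹ - B⁻¹ = A⁻¹ * (B - A) * B⁻¹ := by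
    rw [Matrix.mul_sub, Matrix.sub_mul, Matrix.mul_assoc, Matrix.mul_nonsing_inv _ hdB,
      Matrix.nonsing_inv_mul _ hdA, Matrix.mul_one, Matrix.one_mul]
  have h2 : ((B - A) * A⁻¹ * (B - A) * B⁻¹).trace = 0 := by
    rw [← h0, h1]; simp only [Matrix.mul_assoc]
  have h3 := trace_zero (B - A) A⁻¹ B⁻¹ (by rw [Matrix.transpose_sub, psymm hA, psymm hB])
    hA.inv hB.inv h2
  exact (sub_eq_zero.mp h3).symm

lemma inj {n : ℕ} (X K : Matrix (Fin n) (Fin n) ℝ) (hX : Xᵀ = X) (hK : K.PosDef)
    (h : ∀ i j, X i j = 0 ∨ (K * X * K) j i = 0) : X = 0 := by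
  apply trace_zero X K K hX hK hK
  have : X * K * X * K = X * (K * X * K) := by simp only [Matrix.mul_assoc]
  rw [this]
  exact tr_mul_zero _ _ h

lemma one_add_psd {n : ℕ} (N : Matrix (Fin n) (Fin n) ℝ) (hN : Nᵀ = N) (s : ℝ)
    (hs : |s| * (∑ i, ∑ j, |N i j|) ≤ 1) : (1 + s • N).PosSemidef := by
  apply Matrix.PosSemidef.of_dotProduct_mulVec_nonneg
  · rw [Matrix.IsHermitian, Matrix.conjTranspose_eq_transpose_of_trivial, Matrix.transpose_add,
      Matrix.transpose_smul, hN, Matrix.transpose_one]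
  · intro x
    rw [star_trivial]
    have h1 : x ⬝ᵥ ((1 + s • N) *ᵥ x) = x ⬝ᵥ x + s * ∑ i, ∑ j, x i * (N i j * x j) := by
      rw [Matrix.add_mulVec, Matrix.one_mulVec, dotProduct_add, Matrix.smul_mulVec,
        dotProduct_smul, smul_eq_mul]
      simp only [dotProduct, Matrix.mulVec, Finset.mul_sum]
    have h2 : |∑ i, ∑ j, x i * (N i j * x j)| ≤ (∑ i, ∑ j, |N i j|) * (x ⬝ᵥ x) := by
      refine (Finset.abs_sum_le_sum_abs _ _).trans ?_
      rw [Finset.sum_mul]
      apply Finset.sum_le_sum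
      intro i _
      refine (Finset.abs_sum_le_sum_abs _ _).trans ?_
      rw [Finset.sum_mul]
      apply Finset.sum_le_sum
      intro j _
      have hxi : ∀ k, x k * x k ≤ x ⬝ᵥ x := by
        intro k
        exact Finset.single_le_sum (f := fun k => x k * x k)
          (fun k _ => mul_self_nonneg _) (Finset.mem_univ k)
      have h3 : |x i * x j| ≤ x ⬝ᵥ x := by
        have := hxi i
        have := hxi j
        rw [abs_le]
        constructor <;> nlinarith [sq_nonneg (x i + x j), sq_nonneg (x i - x j)]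
      have h4 : |x i * (N i j * x j)| = |N i j| * |x i * x j| := by
        rw [← abs_mul]; congr 1; ring
      rw [h4]
      exact mul_le_mul_of_nonneg_left h3 (abs_nonneg _)
    have h5 : 0 ≤ x ⬝ᵥ x := Finset.sum_nonneg fun k _ => mul_self_nonneg _
    rw [h1]
    have h6 : |s * ∑ i, ∑ j, x i * (N i j * x j)| ≤ x ⬝ᵥ x := by
      rw [abs_mul]
      calc |s| * |∑ i, ∑ j, x i * (N i j * x j)|
          ≤ |s| * ((∑ i, ∑ j, |N i j|) * (x ⬝ᵥ x)) :=
            mul_le_mul_of_nonneg_left h2 (abs_nonneg _)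
        _ = (|s| * (∑ i, ∑ j, |N i j|)) * (x ⬝ᵥ x) := by ring
        _ ≤ 1 * (x ⬝ᵥ x) := mul_le_mul_of_nonneg_right hs h5
        _ = x ⬝ᵥ x := one_mul _
    have := neg_abs_le (s * ∑ i, ∑ j, x i * (N i j * x j))
    linarith

/-- small symmetric perturbations of a positive definite matrix are positive semidefinite -/
lemma pert {n : ℕ} (A E : Matrix (Fin n) (Fin n) ℝ) (hA : A.PosDef) (hE : Eᵀ = E) :
    ∃ c > 0, ∀ s : ℝ, |s| ≤ c → (A + s • E).PosSemidef := by
  obtain ⟨D, hD⟩ := CStarAlgebra.nonneg_iff_eq_star_mul_self.mp hA.posSemidef.nonneg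
  rw [Matrix.star_eq_conjTranspose, Matrix.conjTranspose_eq_transpose_of_trivial] at hD
  have hdet : IsUnit D.det := by
    have h1 := hA.det_pos.ne'
    rw [hD, Matrix.det_mul, Matrix.det_transpose] at h1
    exact isUnit_iff_ne_zero.mpr (left_ne_zero_of_mul h1)
  set N := (D⁻¹)ᵀ * E * D⁻¹ with hN
  have hNs : Nᵀ = N := by
    rw [hN, Matrix.transpose_mul, Matrix.transpose_mul, hE, Matrix.transpose_transpose,
      Matrix.mul_assoc]
  have hE' : Dᵀ * N * D = E := by
    have h1 : Dᵀ * (D⁻¹)ᵀ = 1 := by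
      rw [← Matrix.transpose_mul, Matrix.nonsing_inv_mul _ hdet, Matrix.transpose_one]
    calc Dᵀ * N * D = (Dᵀ * (D⁻¹)ᵀ) * E * (D⁻¹ * D) := by
          rw [hN]; simp only [Matrix.mul_assoc]
      _ = E := by rw [h1, Matrix.nonsing_inv_mul _ hdet, Matrix.one_mul, Matrix.mul_one]
  have hS : 0 ≤ ∑ i, ∑ j, |N i j| :=
    Finset.sum_nonneg fun i _ => Finset.sum_nonneg fun j _ => abs_nonneg _
  refine ⟨1 / (1 + ∑ i, ∑ j, |N i j|), by positivity, ?_⟩
  intro s hs
  have h1 : (1 + s • N).PosSemidef := by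
    apply one_add_psd N hNs
    calc |s| * (∑ i, ∑ j, |N i j|) ≤ 1 / (1 + ∑ i, ∑ j, |N i j|) * (∑ i, ∑ j, |N i j|) :=
          mul_le_mul_of_nonneg_right hs hS
      _ ≤ 1 := by
          rw [one_div, inv_mul_le_iff₀ (by positivity)]
          linarith
  have h2 := h1.conjTranspose_mul_mul_same D
  have h3 : Dᴴ * (1 + s • N) * D = A + s • E := by
    rw [Matrix.conjTranspose_eq_transpose_of_trivial, Matrix.mul_add, Matrix.add_mul,
      Matrix.mul_one, ← hD, Matrix.mul_smul, Matrix.smul_mul, hE']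
  rw [h3] at h2
  exact h2

lemma stat {n : ℕ} (A E : Matrix (Fin n) (Fin n) ℝ) (hA : A.PosDef) (c : ℝ) (hc : 0 < c)
    (hmax : ∀ s : ℝ, |s| ≤ c → (A + s • E).det ≤ A.det) : (A⁻¹ * E).trace = 0 := by
  have hdet : IsUnit A.det := hA.det_pos.ne'.isUnit
  by_contra hne
  set τ := (A⁻¹ * E).trace with hτ
  set q : Polynomial ℝ := (Matrix.det (1 + (Polynomial.X : Polynomial ℝ) •
    (A⁻¹ * E).map Polynomial.C)).divX.divX with hq
  have h1 : ∀ s : ℝ, |s| ≤ c → τ * s + q.eval s * s ^ 2 ≤ 0 := by
    intro s hs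
    have h2 : (A + s • E).det = A.det * (1 + τ * s + q.eval s * s ^ 2) := by
      rw [hτ, hq, ← Matrix.det_one_add_smul, ← Matrix.det_mul, Matrix.mul_add, Matrix.mul_one,
        Matrix.mul_smul, Matrix.mul_nonsing_inv_cancel_left _ _ hdet]
    have h3 := hmax s hs
    rw [h2] at h3
    have h4 := hA.det_pos
    have h5 : 1 + τ * s + q.eval s * s ^ 2 ≤ 1 := by
      by_contra h6
      push Not at h6
      nlinarith
    linarith
  -- the function s ↦ τ + q(s) s has the sign of τ near 0
  have hcont : Filter.Tendsto (fun s : ℝ => τ * τ + q.eval (τ * s) * (τ * s) * τ)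
      (nhds 0) (nhds (τ * τ)) := by
    have : Continuous (fun s : ℝ => τ * τ + q.eval (τ * s) * (τ * s) * τ) := by
      have := q.continuous
      fun_prop
    have h := this.tendsto 0
    simpa using h
  have hpos : 0 < τ * τ := mul_self_pos.mpr hne
  have hev := hcont.eventually (lt_mem_nhds hpos)
  have hev2 : ∀ᶠ s : ℝ in nhds 0, |τ * s| ≤ c := by
    have : Continuous (fun s : ℝ => |τ * s|) := by fun_prop
    have h := this.tendsto 0
    simp only [mul_zero, abs_zero] at h
    filter_upwards [h.eventually (gt_mem_nhds hc)] with s hs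
    exact hs.le
  obtain ⟨δ, hδ0, hδ⟩ := Metric.eventually_nhds_iff.mp (hev.and hev2)
  have h7 := hδ (y := δ / 2) (by
    rw [Real.dist_eq, sub_zero, abs_of_pos (by linarith)]; linarith)
  have h8 := h1 (τ * (δ / 2)) h7.2
  have h9 := h7.1
  nlinarith

lemma closed_psd {n : ℕ} : IsClosed {A : Matrix (Fin n) (Fin n) ℝ | A.PosSemidef} := by
  have : {A : Matrix (Fin n) (Fin n) ℝ | A.PosSemidef} =
      {A | Aᴴ = A} ∩ ⋂ x : Fin n → ℝ, {A | 0 ≤ star x ⬝ᵥ (A *ᵥ x)} := by
    ext A
    simp only [Set.mem_ofPred_eq, Set.mem_inter_iff, Set.mem_iInter]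
    exact Matrix.posSemidef_iff_dotProduct_mulVec
  rw [this]
  apply IsClosed.inter
  · exact isClosed_eq (by fun_prop) continuous_id
  · apply isClosed_iInter
    intro x
    exact isClosed_le continuous_const (by fun_prop)

lemma psd_entry {n : ℕ} (A : Matrix (Fin n) (Fin n) ℝ) (hA : A.PosSemidef)
    (hd : ∀ i, A i i = 1) (i j : Fin n) : A i j ∈ Set.Icc (-1 : ℝ) 1 := by
  have hs : A j i = A i j := by
    have := congrFun (congrFun hA.1 i) j
    simpa [Matrix.conjTranspose_apply] using this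
  have h1 := hA.dotProduct_mulVec_nonneg (Pi.single i 1 + Pi.single j 1)
  have h2 := hA.dotProduct_mulVec_nonneg (Pi.single i 1 - Pi.single j 1)
  simp only [star_trivial, Matrix.mulVec_add, Matrix.mulVec_sub, add_dotProduct, sub_dotProduct,
    dotProduct_add, dotProduct_sub, Matrix.mulVec_single_one, single_one_dotProduct,
    Matrix.col_apply, hd, hs] at h1 h2
  constructor <;> linarith

lemma exist {n : ℕ} (B : Matrix (Fin n) (Fin n) ℝ) (hB : B.PosDef) (hd : ∀ i, B i i = 1)
    (P : Fin n → Fin n → Prop) (hPs : ∀ i j, P i j → P j i) (hPd : ∀ i, ¬ P i i) :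
    ∃ A : Matrix (Fin n) (Fin n) ℝ, A.PosDef ∧ (∀ i j, ¬ P i j → A i j = B i j) ∧
      ∀ i j, P i j → A⁻¹ i j = 0 := by
  set K : Set (Matrix (Fin n) (Fin n) ℝ) :=
    {A | A.PosSemidef} ∩ ⋂ i, ⋂ j, {A | ¬ P i j → A i j = B i j} with hK
  have hKm : ∀ A, A ∈ K ↔ A.PosSemidef ∧ ∀ i j, ¬ P i j → A i j = B i j := by
    intro A
    rw [hK]
    simp only [Set.mem_inter_iff, Set.mem_ofPred_eq, Set.mem_iInter]
  have hKc : IsClosed K := by
    apply closed_psd.inter
    apply isClosed_iInter
    intro i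
    apply isClosed_iInter
    intro j
    by_cases h : P i j
    · have : {A : Matrix (Fin n) (Fin n) ℝ | ¬ P i j → A i j = B i j} = Set.univ := by
        ext A; simp [h]
      rw [this]; exact isClosed_univ
    · have : {A : Matrix (Fin n) (Fin n) ℝ | ¬ P i j → A i j = B i j} = {A | A i j = B i j} := by
        ext A; simp [h]
      rw [this]
      exact isClosed_eq (by fun_prop) continuous_const
  have hKcomp : IsCompact K := by
    have h1 : IsCompact (Set.pi Set.univ (fun _ : Fin n => Set.pi Set.univ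
        (fun _ : Fin n => Set.Icc (-1 : ℝ) 1))) :=
      isCompact_univ_pi fun _ => isCompact_univ_pi fun _ => isCompact_Icc
    refine IsCompact.of_isClosed_subset h1 hKc ?_
    intro A hA i _ j _
    obtain ⟨h2, h3⟩ := (hKm A).mp hA
    exact psd_entry A h2 (fun i => by rw [h3 i i (hPd i), hd i]) i j
  have hBK : B ∈ K := (hKm B).mpr ⟨hB.posSemidef, fun _ _ _ => rfl⟩
  obtain ⟨A, hAK, hAmax⟩ := hKcomp.exists_isMaxOn ⟨B, hBK⟩
    (f := fun A : Matrix (Fin n) (Fin n) ℝ => A.det) (by fun_prop)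
  obtain ⟨hApsd, hAB⟩ := (hKm A).mp hAK
  have hdetA : 0 < A.det := lt_of_lt_of_le hB.det_pos (hAmax hBK)
  have hApd : A.PosDef := hApsd.posDef_iff_det_ne_zero.mpr hdetA.ne'
  refine ⟨A, hApd, hAB, ?_⟩
  intro i j hij
  have hne : i ≠ j := by
    rintro rfl
    exact hPd _ hij
  set E : Matrix (Fin n) (Fin n) ℝ := Matrix.single i j 1 + Matrix.single j i 1 with hE
  have hEs : Eᵀ = E := by
    rw [hE, Matrix.transpose_add, Matrix.transpose_single, Matrix.transpose_single, add_comm]
  obtain ⟨c, hc, hpert⟩ := pert A E hApd hEs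
  have h1 := stat A E hApd c hc (by
    intro s hs
    apply hAmax
    refine (hKm _).mpr ⟨hpert s hs, ?_⟩
    intro a b hab
    have h2 : E a b = 0 := by
      rw [hE, Matrix.add_apply, Matrix.single_apply, Matrix.single_apply, if_neg, if_neg]
      · ring
      · rintro ⟨rfl, rfl⟩; exact hab (hPs _ _ hij)
      · rintro ⟨rfl, rfl⟩; exact hab hij
    rw [Matrix.add_apply, Matrix.smul_apply, h2, smul_zero, add_zero]
    exact hAB a b hab)
  have hKs : A⁻¹ j i = A⁻¹ i j := by
    have := congrFun (congrFun (psymm hApd.inv) i) j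
    simpa [Matrix.transpose_apply] using this
  have h3 : (A⁻¹ * E).trace = 2 * A⁻¹ i j := by
    rw [hE, Matrix.mul_add, Matrix.trace_add, Matrix.trace_mul_single, Matrix.trace_mul_single]
    simp only [MulOpposite.op_one, one_smul, hKs]
    ring
  rw [h3] at h1
  linarith

noncomputable section
open scoped Classical Topology

variable {n : ℕ} (G H : SimpleGraph (Fin n))

/-- index set: the edges of `H` -/
abbrev PH : Type := {p : Fin n × Fin n // p.1 < p.2 ∧ H.Adj p.1 p.2}

/-- index set: the common edges of `G` and `H` -/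
abbrev PF : Type := {p : PH H // G.Adj p.1.1 p.1.2}

/-- the symmetric matrix with zero diagonal and given entries at the edges of `H` -/
def L (x : PH H → ℝ) : Matrix (Fin n) (Fin n) ℝ := fun i j =>
  if h : i < j ∧ H.Adj i j then x ⟨(i, j), h⟩
  else if h : j < i ∧ H.Adj j i then x ⟨(j, i), h⟩ else 0

lemma L_symm (x : PH H → ℝ) : (L H x)ᵀ = L H x := by
  ext i j
  rw [Matrix.transpose_apply]
  unfold L
  by_cases h1 : i < j ∧ H.Adj i j
  · have h2 : ¬ (j < i ∧ H.Adj j i) := fun h => lt_asymm h.1 h1.1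
    rw [dif_neg h2, dif_pos h1, dif_pos h1]
  · by_cases h2 : j < i ∧ H.Adj j i
    · rw [dif_pos h2, dif_neg h1, dif_pos h2]
    · rw [dif_neg h2, dif_neg h1, dif_neg h1, dif_neg h2]

lemma L_nonadj (x : PH H → ℝ) {i j : Fin n} (h : ¬ H.Adj i j) : L H x i j = 0 := by
  unfold L
  rw [dif_neg (fun h1 => h h1.2), dif_neg (fun h1 => h h1.2.symm)]

lemma L_apply (x : PH H → ℝ) (p : PH H) : L H x p.1.1 p.1.2 = x p := by
  unfold L
  rw [dif_pos p.2]

lemma L_add (x y : PH H → ℝ) : L H (x + y) = L H x + L H y := by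
  ext i j
  rw [Matrix.add_apply]
  unfold L
  split_ifs <;> simp

lemma L_smul (c : ℝ) (x : PH H → ℝ) : L H (c • x) = c • L H x := by
  ext i j
  rw [Matrix.smul_apply]
  unfold L
  split_ifs <;> simp

/-- a symmetric matrix supported on `H` is determined by its entries at the edges of `H` -/
lemma L_of (A : Matrix (Fin n) (Fin n) ℝ) (hA : Aᵀ = A) (hd : ∀ i, A i i = 0)
    (hs : ∀ i j, i ≠ j → ¬ H.Adj i j → A i j = 0) : L H (fun p => A p.1.1 p.1.2) = A := by
  ext i j
  unfold L
  by_cases h1 : i < j ∧ H.Adj i j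
  · rw [dif_pos h1]
  · rw [dif_neg h1]
    by_cases h2 : j < i ∧ H.Adj j i
    · rw [dif_pos h2]
      have := congrFun (congrFun hA i) j
      simpa [Matrix.transpose_apply] using this
    · rw [dif_neg h2]
      by_cases hij : i = j
      · rw [hij, hd]
      · rw [hs i j hij]
        intro h3
        rcases lt_or_gt_of_ne hij with h4 | h4
        · exact h1 ⟨h4, h3⟩
        · exact h2 ⟨h4, h3.symm⟩

/-- the matrix with unit diagonal and given entries at the edges of `H` -/
def S (x : PH H → ℝ) : Matrix (Fin n) (Fin n) ℝ := 1 + L H x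

lemma S_symm (x : PH H → ℝ) : (S H x)ᵀ = S H x := by
  unfold S
  rw [Matrix.transpose_add, Matrix.transpose_one, L_symm]

lemma S_analytic (x0 : PH H → ℝ) (i j : Fin n) : AnalyticAt ℝ (fun x => S H x i j) x0 := by
  have h : (fun x : PH H → ℝ => S H x i j) = fun x => (1 : Matrix (Fin n) (Fin n) ℝ) i j +
      (if h : i < j ∧ H.Adj i j then x ⟨(i, j), h⟩
        else if h : j < i ∧ H.Adj j i then x ⟨(j, i), h⟩ else 0) := by
    funext x; rfl
  rw [h]
  apply analyticAt_const.add
  have hp : ∀ p : PH H, AnalyticAt ℝ (fun x : PH H → ℝ => x p) x0 := fun p =>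
    (ContinuousLinearMap.proj (R := ℝ) (φ := fun _ : PH H => ℝ) p).analyticAt x0
  split_ifs with h1 h2
  · exact hp _
  · exact hp _
  · exact analyticAt_const

lemma det_analytic {E : Type} [NormedAddCommGroup E] [NormedSpace ℝ E]
    (M : E → Matrix (Fin n) (Fin n) ℝ) (x0 : E)
    (h : ∀ i j, AnalyticAt ℝ (fun x => M x i j) x0) : AnalyticAt ℝ (fun x => (M x).det) x0 := by
  simp only [Matrix.det_apply']
  apply Finset.analyticAt_fun_sum
  intro σ _
  apply analyticAt_const.mul
  apply Finset.analyticAt_fun_prod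
  intro i _
  exact h _ _

lemma inv_analytic {E : Type} [NormedAddCommGroup E] [NormedSpace ℝ E]
    (M : E → Matrix (Fin n) (Fin n) ℝ) (x0 : E)
    (h : ∀ i j, AnalyticAt ℝ (fun x => M x i j) x0) (hdet : (M x0).det ≠ 0) (i j : Fin n) :
    AnalyticAt ℝ (fun x => (M x)⁻¹ i j) x0 := by
  have h1 : (fun x => (M x)⁻¹ i j) = fun x => ((M x).det)⁻¹ *
      ((M x).updateRow j (Pi.single i 1)).det := by
    funext x
    rw [Matrix.inv_def, Matrix.smul_apply, Ring.inverse_eq_inv', smul_eq_mul,
      Matrix.adjugate_apply]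
  rw [h1]
  apply ((det_analytic M x0 h).inv hdet).mul
  apply det_analytic
  intro a b
  by_cases ha : a = j
  · subst ha
    simp only [Matrix.updateRow_self]
    exact analyticAt_const
  · simp only [Matrix.updateRow_ne ha]
    exact h a b

/-- the set of parameters of the matrices in `M₁(G ∪ U, H)` -/
def N : Set (PH H → ℝ) :=
  {x | (S H x).PosDef ∧ ∀ p : PH H, ¬ G.Adj p.1.1 p.1.2 → (S H x)⁻¹ p.1.1 p.1.2 = 0}

/-- the coordinate map -/
def Phi (x : PH H → ℝ) : PH H → ℝ := fun p =>
  if G.Adj p.1.1 p.1.2 then x p else (S H x)⁻¹ p.1.1 p.1.2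

lemma Phi_analytic (x0 : PH H → ℝ) (h : (S H x0).det ≠ 0) : AnalyticAt ℝ (Phi G H) x0 := by
  apply AnalyticAt.pi
  intro p
  unfold Phi
  by_cases hp : G.Adj p.1.1 p.1.2
  · simp only [if_pos hp]
    exact (ContinuousLinearMap.proj (R := ℝ) (φ := fun _ : PH H => ℝ) p).analyticAt x0
  · simp only [if_neg hp]
    exact inv_analytic _ _ (S_analytic H x0) h _ _

lemma posDef_near (x0 : PH H → ℝ) (h : (S H x0).PosDef) : ∀ᶠ x in 𝓝 x0, (S H x).PosDef := by
  obtain ⟨D, hD⟩ := CStarAlgebra.nonneg_iff_eq_star_mul_self.mp h.posSemidef.nonneg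
  rw [Matrix.star_eq_conjTranspose, Matrix.conjTranspose_eq_transpose_of_trivial] at hD
  have hdet : IsUnit D.det := by
    have h1 := h.det_pos.ne'
    rw [hD, Matrix.det_mul, Matrix.det_transpose] at h1
    exact isUnit_iff_ne_zero.mpr (left_ne_zero_of_mul h1)
  have hSc : Continuous (fun x : PH H → ℝ => S H x) := by
    refine continuous_pi fun i => continuous_pi fun j => ?_
    rw [continuous_iff_continuousAt]
    intro x
    exact (S_analytic H x i j).continuousAt
  let Nf : (PH H → ℝ) → Matrix (Fin n) (Fin n) ℝ := fun x =>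
    (D⁻¹)ᵀ * (S H x - S H x0) * D⁻¹
  have hNs : ∀ x, (Nf x)ᵀ = Nf x := by
    intro x
    simp only [Nf]
    rw [Matrix.transpose_mul, Matrix.transpose_mul, Matrix.transpose_transpose,
      Matrix.transpose_sub, S_symm, S_symm, Matrix.mul_assoc]
  have h1 : Continuous (fun x => ∑ i, ∑ j, |Nf x i j|) := by
    have hN : Continuous Nf := by
      simp only [Nf]
      fun_prop
    fun_prop
  have h2 : ∀ᶠ x in 𝓝 x0, ∑ i, ∑ j, |Nf x i j| < 1 := by
    have h3 : ∑ i, ∑ j, |Nf x0 i j| < 1 := by
      simp [Nf]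
    exact h1.continuousAt.eventually_lt continuousAt_const h3
  have h4 : ∀ᶠ x in 𝓝 x0, (S H x).det ≠ 0 := by
    have : Continuous (fun x => (S H x).det) := by fun_prop
    exact this.continuousAt.eventually_ne h.det_pos.ne'
  filter_upwards [h2, h4] with x hx hdx
  have h5 : (1 + (1 : ℝ) • Nf x).PosSemidef := by
    apply one_add_psd _ (hNs x)
    rw [abs_one, one_mul]
    exact hx.le
  have h6 := h5.conjTranspose_mul_mul_same D
  have h7 : Dᴴ * (1 + (1 : ℝ) • Nf x) * D = S H x := by
    have e1 : Dᵀ * (D⁻¹)ᵀ = 1 := by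
      rw [← Matrix.transpose_mul, Matrix.nonsing_inv_mul _ hdet, Matrix.transpose_one]
    have e2 : Dᵀ * Nf x * D = S H x - S H x0 := by
      calc Dᵀ * Nf x * D = (Dᵀ * (D⁻¹)ᵀ) * (S H x - S H x0) * (D⁻¹ * D) := by
            simp only [Nf, Matrix.mul_assoc]
        _ = S H x - S H x0 := by
            rw [e1, Matrix.nonsing_inv_mul _ hdet, Matrix.one_mul, Matrix.mul_one]
    rw [Matrix.conjTranspose_eq_transpose_of_trivial, one_smul, Matrix.mul_add, Matrix.add_mul,
      Matrix.mul_one, ← hD, e2]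
    abel
  rw [h7] at h6
  exact h6.posDef_iff_det_ne_zero.mpr hdx

/-- the derivative of `Phi` is injective -/
lemma dPhi_inj (x0 : PH H → ℝ) (h : (S H x0).PosDef) (f' : (PH H → ℝ) →L[ℝ] (PH H → ℝ))
    (hf : HasFDerivAt (Phi G H) f' x0) (v : PH H → ℝ) (hv : f' v = 0) : v = 0 := by
  have hline : HasDerivAt (fun s : ℝ => x0 + s • v) v 0 := by
    have h1 : HasDerivAt (fun s : ℝ => s • v) ((1 : ℝ) • v) 0 :=
      (hasDerivAt_id (0 : ℝ)).smul_const v
    rw [one_smul] at h1
    exact h1.const_add x0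
  have hf0 : HasFDerivAt (Phi G H) f' (x0 + (0 : ℝ) • v) := by simpa using hf
  have hcomp : HasDerivAt (fun s : ℝ => Phi G H (x0 + s • v)) (f' v) 0 := by
    have := HasFDerivAt.comp_hasDerivAt (f := fun s : ℝ => x0 + s • v) (0 : ℝ) hf0 hline
    exact this
  rw [hv] at hcomp
  have hcomp' := hasDerivAt_pi.mp hcomp
  have hK : ∀ p : PH H, ¬ G.Adj p.1.1 p.1.2 →
      ((S H x0)⁻¹ * L H v * (S H x0)⁻¹) p.1.1 p.1.2 = 0 := by
    intro p hp
    have h1 : HasDerivAt (fun s : ℝ => (S H (x0 + s • v))⁻¹ p.1.1 p.1.2) 0 0 := by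
      have := hcomp' p
      simp only [Phi, if_neg hp] at this
      exact this
    have hdet0 : ((S H x0).det) ≠ 0 := h.det_pos.ne'
    -- continuity of the inverse along the line
    have hinvc : ∀ i j, ContinuousAt (fun s : ℝ => (S H (x0 + s • v))⁻¹ i j) 0 := by
      intro i j
      have h2 := (inv_analytic (S H) x0 (S_analytic H x0) hdet0 i j).continuousAt
      have h3 : ContinuousAt (fun s : ℝ => x0 + s • v) 0 := hline.continuousAt
      have h2' : ContinuousAt (fun x => (S H x)⁻¹ i j) (x0 + (0 : ℝ) • v) := by simpa using h2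
      exact h2'.comp (f := fun s : ℝ => x0 + s • v) h3
    have hq : ContinuousAt (fun s : ℝ =>
        ((S H x0)⁻¹ * L H v * (S H (x0 + s • v))⁻¹) p.1.1 p.1.2) 0 := by
      simp only [Matrix.mul_apply (M := (S H x0)⁻¹ * L H v)]
      apply tendsto_finsetSum
      intro k _
      exact (continuousAt_const (y := ((S H x0)⁻¹ * L H v) p.1.1 k)).mul (hinvc k p.1.2)
    have hdetc : ∀ᶠ s : ℝ in 𝓝 0, (S H (x0 + s • v)).det ≠ 0 := by
      have h2 := (det_analytic (S H) x0 (S_analytic H x0)).continuousAt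
      have h3 : ContinuousAt (fun s : ℝ => x0 + s • v) 0 := hline.continuousAt
      have h2' : ContinuousAt (fun x => (S H x).det) (x0 + (0 : ℝ) • v) := by simpa using h2
      have h4 : ContinuousAt (fun s : ℝ => (S H (x0 + s • v)).det) 0 :=
        h2'.comp (f := fun s : ℝ => x0 + s • v) h3
      apply h4.eventually_ne
      simpa using hdet0
    rw [hasDerivAt_iff_tendsto_slope_zero] at h1
    have h5 : Filter.Tendsto (fun s : ℝ => -
        ((S H x0)⁻¹ * L H v * (S H (x0 + s • v))⁻¹) p.1.1 p.1.2) (𝓝[≠] 0) (𝓝 0) := by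
      apply h1.congr'
      filter_upwards [self_mem_nhdsWithin, nhdsWithin_le_nhds hdetc] with s hs hds
      have hs0 : s ≠ 0 := hs
      have e1 : (S H x0)⁻¹ - (S H (x0 + s • v))⁻¹ =
          s • ((S H x0)⁻¹ * L H v * (S H (x0 + s • v))⁻¹) := by
        have e2 : S H (x0 + s • v) = S H x0 + s • L H v := by
          unfold S
          rw [L_add, L_smul, add_assoc]
        have e3 : s • L H v = S H (x0 + s • v) - S H x0 := by rw [e2]; abel
        rw [← Matrix.smul_mul, ← Matrix.mul_smul, e3, Matrix.mul_sub, Matrix.sub_mul,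
          Matrix.mul_assoc, Matrix.mul_nonsing_inv _ (isUnit_iff_ne_zero.mpr hds),
          Matrix.nonsing_inv_mul _ (isUnit_iff_ne_zero.mpr hdet0), Matrix.mul_one, Matrix.one_mul]
      have e4 := congrFun (congrFun e1 p.1.1) p.1.2
      rw [Matrix.sub_apply, Matrix.smul_apply, smul_eq_mul] at e4
      simp only [zero_add, zero_smul, add_zero, smul_eq_mul]
      have e5 : (S H (x0 + s • v))⁻¹ p.1.1 p.1.2 - (S H x0)⁻¹ p.1.1 p.1.2 =
          s * (-((S H x0)⁻¹ * L H v * (S H (x0 + s • v))⁻¹) p.1.1 p.1.2) := by linarith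
      rw [e5, inv_mul_cancel_left₀ hs0]
    have h6 : Filter.Tendsto (fun s : ℝ => -
        ((S H x0)⁻¹ * L H v * (S H (x0 + s • v))⁻¹) p.1.1 p.1.2) (𝓝[≠] 0)
        (𝓝 (-((S H x0)⁻¹ * L H v * (S H (x0 + (0 : ℝ) • v))⁻¹) p.1.1 p.1.2)) :=
      (hq.neg).tendsto.mono_left nhdsWithin_le_nhds
    have h7 := tendsto_nhds_unique h5 h6
    simp only [zero_smul, add_zero] at h7
    linarith
  have hF : ∀ p : PH H, G.Adj p.1.1 p.1.2 → v p = 0 := by
    intro p hp
    have h1 := hcomp' p
    simp only [Phi, if_pos hp] at h1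
    have h2 := hasDerivAt_pi.mp hline p
    exact h2.unique h1
  have hL : L H v = 0 := by
    apply inj (L H v) (S H x0)⁻¹ (L_symm H v) h.inv
    intro i j
    by_cases hH : H.Adj i j
    · rcases lt_or_gt_of_ne hH.ne with hij | hij
      · by_cases hG : G.Adj i j
        · left
          have := L_apply H v ⟨(i, j), hij, hH⟩
          rw [this]; exact hF _ hG
        · right
          have h1 := hK ⟨(i, j), hij, hH⟩ hG
          have h2 : ((S H x0)⁻¹ * L H v * (S H x0)⁻¹)ᵀ = (S H x0)⁻¹ * L H v * (S H x0)⁻¹ := by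
            rw [Matrix.transpose_mul, Matrix.transpose_mul, psymm h.inv, L_symm,
              Matrix.mul_assoc]
          have h3 := congrFun (congrFun h2 i) j
          rw [Matrix.transpose_apply] at h3
          rw [h3]; exact h1
      · by_cases hG : G.Adj i j
        · left
          have h1 := L_apply H v ⟨(j, i), hij, hH.symm⟩
          have h2 := congrFun (congrFun (L_symm H v) i) j
          rw [Matrix.transpose_apply] at h2
          rw [← h2]
          simp only at h1
          rw [h1]; exact hF _ hG.symm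
        · right
          exact hK ⟨(j, i), hij, hH.symm⟩ (fun h => hG h.symm)
    · left
      exact L_nonadj H v hH
  funext p
  rw [← L_apply H v p, hL]
  rfl

/-- restriction to the common edges -/
def res (x : PH H → ℝ) : PF G H → ℝ := fun q => x q.1

/-- extension by zero -/
def ext (a : PF G H → ℝ) : PH H → ℝ := fun p =>
  if h : G.Adj p.1.1 p.1.2 then a ⟨p, h⟩ else 0

lemma Phi_N (x : PH H → ℝ) (hx : x ∈ N G H) : Phi G H x = ext G H (res G H x) := by
  funext p
  unfold Phi ext res
  by_cases hp : G.Adj p.1.1 p.1.2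
  · rw [if_pos hp, dif_pos hp]
  · rw [if_neg hp, dif_neg hp]
    exact hx.2 p hp

lemma S_apply (x : PH H → ℝ) (p : PH H) : S H x p.1.1 p.1.2 = x p := by
  unfold S
  rw [Matrix.add_apply, L_apply, Matrix.one_apply_ne p.2.1.ne, zero_add]

lemma S_diag (x : PH H → ℝ) (i : Fin n) : S H x i i = 1 := by
  unfold S
  rw [Matrix.add_apply, L_nonadj H x (H.irrefl), Matrix.one_apply_eq, add_zero]

lemma S_nonadj (x : PH H → ℝ) {i j : Fin n} (hij : i ≠ j) (h : ¬ H.Adj i j) :
    S H x i j = 0 := by
  unfold S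
  rw [Matrix.add_apply, L_nonadj H x h, Matrix.one_apply_ne hij, add_zero]

lemma S_comm (x : PH H → ℝ) (i j : Fin n) : S H x j i = S H x i j := by
  have := congrFun (congrFun (S_symm H x) i) j
  simpa [Matrix.transpose_apply] using this

lemma Sinv_comm (x : PH H → ℝ) (h : (S H x).PosDef) (i j : Fin n) :
    (S H x)⁻¹ j i = (S H x)⁻¹ i j := by
  have := congrFun (congrFun (psymm h.inv) i) j
  simpa [Matrix.transpose_apply] using this

lemma N_inv (x : PH H → ℝ) (hx : x ∈ N G H) {i j : Fin n} (hH : H.Adj i j) (hG : ¬ G.Adj i j) :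
    (S H x)⁻¹ i j = 0 := by
  rcases lt_or_gt_of_ne hH.ne with hij | hij
  · exact hx.2 ⟨(i, j), hij, hH⟩ hG
  · rw [← Sinv_comm H x hx.1]
    exact hx.2 ⟨(j, i), hij, hH.symm⟩ (fun h => hG h.symm)

lemma N_unique (x y : PH H → ℝ) (hx : x ∈ N G H) (hy : y ∈ N G H)
    (h : res G H x = res G H y) : x = y := by
  have hS : S H x = S H y := by
    apply uniq _ _ hx.1 hy.1
    intro i j
    by_cases hij : i = j
    · left; rw [hij, S_diag, S_diag]
    by_cases hH : H.Adj i j
    · by_cases hG : G.Adj i j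
      · left
        rcases lt_or_gt_of_ne hij with h1 | h1
        · have e1 := S_apply H x ⟨(i, j), h1, hH⟩
          have e2 := S_apply H y ⟨(i, j), h1, hH⟩
          have e3 := congrFun h ⟨⟨(i, j), h1, hH⟩, hG⟩
          simp only [res] at e1 e2 e3
          rw [e1, e2, e3]
        · have e1 := S_apply H x ⟨(j, i), h1, hH.symm⟩
          have e2 := S_apply H y ⟨(j, i), h1, hH.symm⟩
          have e3 := congrFun h ⟨⟨(j, i), h1, hH.symm⟩, hG.symm⟩
          simp only [res] at e1 e2 e3
          rw [← S_comm H x, ← S_comm H y, e1, e2, e3]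
      · right
        exact ⟨N_inv G H x hx hH.symm (fun h => hG h.symm),
          N_inv G H y hy hH.symm (fun h => hG h.symm)⟩
    · left; rw [S_nonadj H x hij hH, S_nonadj H y hij hH]
  funext p
  rw [← S_apply H x p, ← S_apply H y p, hS]

lemma zero_mem_N : (0 : PH H → ℝ) ∈ N G H := by
  have h : S H 0 = 1 := by
    unfold S
    have : L H 0 = 0 := by
      have := L_smul H 0 0
      simpa using this
    rw [this, add_zero]
  constructor
  · rw [h]; exact Matrix.PosDef.one
  · intro p _
    rw [h, inv_one, Matrix.one_apply_ne p.2.1.ne]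

lemma N_scale (x : PH H → ℝ) (hx : x ∈ N G H) (t : ℝ) (ht0 : 0 ≤ t) (ht1 : t ≤ 1) :
    ∃ y ∈ N G H, res G H y = t • res G H x := by
  have hBpd : ((1 - t) • (1 : Matrix (Fin n) (Fin n) ℝ) + t • S H x).PosDef := by
    rcases eq_or_lt_of_le ht0 with h | h
    · rw [← h]; simpa using (Matrix.PosDef.one : (1 : Matrix (Fin n) (Fin n) ℝ).PosDef)
    · exact Matrix.PosDef.posSemidef_add
        (Matrix.PosSemidef.one.smul (by linarith : (0 : ℝ) ≤ 1 - t)) (hx.1.smul h)
  have hBd : ∀ i, ((1 - t) • (1 : Matrix (Fin n) (Fin n) ℝ) + t • S H x) i i = 1 := by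
    intro i
    rw [Matrix.add_apply, Matrix.smul_apply, Matrix.smul_apply, S_diag, Matrix.one_apply_eq]
    simp
  obtain ⟨A, hA, hAB, hAi⟩ := exist _ hBpd hBd (fun i j => H.Adj i j ∧ ¬ G.Adj i j)
    (fun i j h => ⟨h.1.symm, fun h' => h.2 h'.symm⟩) (fun i h => H.irrefl h.1)
  have hAd : ∀ i, A i i = 1 := by
    intro i
    rw [hAB i i (fun h => H.irrefl h.1), hBd]
  have hAs : ∀ i j, i ≠ j → ¬ H.Adj i j → A i j = 0 := by
    intro i j hij hH
    rw [hAB i j (fun h => hH h.1), Matrix.add_apply, Matrix.smul_apply, Matrix.smul_apply,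
      S_nonadj H x hij hH, Matrix.one_apply_ne hij]
    simp
  have hSA : S H (fun p => A p.1.1 p.1.2) = A := by
    unfold S
    have h1 : L H (fun p => (A - 1) p.1.1 p.1.2) = A - 1 := by
      apply L_of
      · rw [Matrix.transpose_sub, psymm hA, Matrix.transpose_one]
      · intro i
        rw [Matrix.sub_apply, hAd, Matrix.one_apply_eq, sub_self]
      · intro i j hij hH
        rw [Matrix.sub_apply, hAs i j hij hH, Matrix.one_apply_ne hij, sub_self]
    have h2 : (fun p : PH H => A p.1.1 p.1.2) = fun p : PH H => (A - 1) p.1.1 p.1.2 := by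
      funext p
      rw [Matrix.sub_apply, Matrix.one_apply_ne p.2.1.ne, sub_zero]
    rw [h2, h1]
    abel
  refine ⟨fun p => A p.1.1 p.1.2, ⟨?_, ?_⟩, ?_⟩
  · rw [hSA]; exact hA
  · intro p hp
    rw [hSA]
    exact hAi _ _ ⟨p.2.2, hp⟩
  · funext q
    simp only [res, Pi.smul_apply, smul_eq_mul]
    rw [hAB _ _ (fun h => h.2 q.2), Matrix.add_apply, Matrix.smul_apply, Matrix.smul_apply,
      S_apply, Matrix.one_apply_ne q.1.2.1.ne]
    simp

lemma ext_analytic (a : PF G H → ℝ) : AnalyticAt ℝ (ext G H) a := by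
  apply AnalyticAt.pi
  intro p
  unfold ext
  by_cases hp : G.Adj p.1.1 p.1.2
  · simp only [dif_pos hp]
    exact (ContinuousLinearMap.proj (R := ℝ) (φ := fun _ : PF G H => ℝ) ⟨p, hp⟩).analyticAt a
  · simp only [dif_neg hp]
    exact analyticAt_const

lemma local_section (x0 : PH H → ℝ) (hx0 : x0 ∈ N G H) :
    ∃ ψ0 : (PF G H → ℝ) → (PH H → ℝ), AnalyticAt ℝ ψ0 (res G H x0) ∧
      ψ0 (res G H x0) = x0 ∧
      ∀ᶠ a in 𝓝 (res G H x0), ψ0 a ∈ N G H ∧ res G H (ψ0 a) = a := by
  have hA : AnalyticAt ℝ (Phi G H) x0 := Phi_analytic G H x0 hx0.1.det_pos.ne'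
  have hfd : HasFDerivAt (Phi G H) (fderiv ℝ (Phi G H) x0) x0 :=
    hA.differentiableAt.hasFDerivAt
  have hinj : Function.Injective
      ((fderiv ℝ (Phi G H) x0 : (PH H → ℝ) →L[ℝ] (PH H → ℝ)) : (PH H → ℝ) →ₗ[ℝ] (PH H → ℝ)) := by
    rw [← LinearMap.ker_eq_bot, LinearMap.ker_eq_bot']
    intro v hv
    exact dPhi_inj G H x0 hx0.1 _ hfd v hv
  let e : (PH H → ℝ) ≃L[ℝ] (PH H → ℝ) :=
    (LinearEquiv.ofInjectiveEndo _ hinj).toContinuousLinearEquiv
  have he : (e : (PH H → ℝ) →L[ℝ] (PH H → ℝ)) = fderiv ℝ (Phi G H) x0 := by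
    ext1 v
    rfl
  have hfe : HasFDerivAt (Phi G H) (e : (PH H → ℝ) →L[ℝ] (PH H → ℝ)) x0 := by
    rw [he]; exact hfd
  have hcd : ContDiffAt ℝ ⊤ (Phi G H) x0 := hA.contDiffAt
  have hn : (⊤ : WithTop ℕ∞) ≠ 0 := by simp
  have hs : HasStrictFDerivAt (Phi G H) (e : (PH H → ℝ) →L[ℝ] (PH H → ℝ)) x0 :=
    hcd.hasStrictFDerivAt' hfe hn
  let g := hcd.localInverse hfe hn
  have hg : AnalyticAt ℝ g (Phi G H x0) := by
    have := hcd.to_localInverse hfe hn
    exact this.analyticAt
  have hg0 : g (Phi G H x0) = x0 := hcd.localInverse_apply_image hfe hn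
  have hgr : ∀ᶠ y in 𝓝 (Phi G H x0), Phi G H (g y) = y := hs.eventually_right_inverse
  have hP : Phi G H x0 = ext G H (res G H x0) := Phi_N G H x0 hx0
  have hψ : AnalyticAt ℝ (fun a => g (ext G H a)) (res G H x0) := by
    rw [hP] at hg
    exact AnalyticAt.fun_comp hg (ext_analytic G H _)
  refine ⟨fun a => g (ext G H a), hψ, ?_, ?_⟩
  · simp only
    rw [← hP, hg0]
  · have h1 : ∀ᶠ a in 𝓝 (res G H x0), Phi G H (g (ext G H a)) = ext G H a := by
      have hc := (ext_analytic G H (res G H x0)).continuousAt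
      rw [hP] at hgr
      exact hc.eventually hgr
    have h2 : ∀ᶠ a in 𝓝 (res G H x0), (S H (g (ext G H a))).PosDef := by
      have hc := hψ.continuousAt
      have h3 : g (ext G H (res G H x0)) = x0 := by rw [← hP, hg0]
      have h4 := posDef_near H x0 hx0.1
      rw [← h3] at h4
      exact hc.eventually h4
    filter_upwards [h1, h2] with a ha1 ha2
    refine ⟨⟨ha2, ?_⟩, ?_⟩
    · intro p hp
      have := congrFun ha1 p
      simp only [Phi, ext, if_neg hp, dif_neg hp] at this
      exact this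
    · funext q
      have := congrFun ha1 q.1
      simp only [Phi, ext, if_pos q.2, dif_pos q.2] at this
      exact this

/-- the parameter domain -/
def C : Set (PF G H → ℝ) := res G H '' N G H

/-- the global section -/
def psi (a : PF G H → ℝ) : PH H → ℝ :=
  if h : ∃ x ∈ N G H, res G H x = a then h.choose else 0

lemma psi_res (x : PH H → ℝ) (hx : x ∈ N G H) : psi G H (res G H x) = x := by
  have h : ∃ y ∈ N G H, res G H y = res G H x := ⟨x, hx, rfl⟩
  unfold psi
  rw [dif_pos h]
  exact N_unique G H _ _ h.choose_spec.1 hx h.choose_spec.2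

lemma psi_mem (a : PF G H → ℝ) (ha : a ∈ C G H) : psi G H a ∈ N G H ∧ res G H (psi G H a) = a := by
  obtain ⟨x, hx, rfl⟩ := ha
  rw [psi_res G H x hx]
  exact ⟨hx, rfl⟩

lemma C_open : IsOpen (C G H) := by
  rw [isOpen_iff_mem_nhds]
  rintro _ ⟨x, hx, rfl⟩
  obtain ⟨ψ0, -, -, h⟩ := local_section G H x hx
  filter_upwards [h] with a ha
  exact ⟨_, ha.1, ha.2⟩

lemma psi_analytic : AnalyticOnNhd ℝ (psi G H) (C G H) := by
  rintro _ ⟨x, hx, rfl⟩
  obtain ⟨ψ0, h1, -, h⟩ := local_section G H x hx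
  apply h1.congr
  filter_upwards [h] with a ha
  have := psi_res G H _ ha.1
  rw [ha.2] at this
  exact this.symm

lemma C_preconnected : IsPreconnected (C G H) := by
  have h : StarConvex ℝ 0 (C G H) := by
    rw [starConvex_zero_iff]
    rintro _ ⟨x, hx, rfl⟩ t ht0 ht1
    obtain ⟨y, hy, hy2⟩ := N_scale G H x hx t ht0 ht1
    exact ⟨y, hy, hy2⟩
  exact (h.isPathConnected ⟨0, zero_mem_N G H, rfl⟩).isConnected.isPreconnected

lemma inv_psi_analytic (i j : Fin n) :
    AnalyticOnNhd ℝ (fun a => (S H (psi G H a))⁻¹ i j) (C G H) := by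
  intro a ha
  apply inv_analytic (fun a => S H (psi G H a))
  · intro k l
    have := AnalyticAt.comp (g := fun x => S H x k l) (f := psi G H) (x := a)
      (S_analytic H _ k l) (psi_analytic G H a ha)
    exact this
  · exact (psi_mem G H a ha).1.1.det_pos.ne'

/-- The double Markovian Gaussian correlation model `M₁(G,H)`: positive definite (symmetric)
matrices `A` with unit diagonal, `(A⁻¹)_{ij} = 0` for every non-edge `ij` of `G`, and
`A_{ij} = 0` for every non-edge `ij` of `H`. -/
def CorrModel : Set (Fin n → Fin n → ℝ) :=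
  {A | (Matrix.of A).PosDef ∧ (∀ i, A i i = 1) ∧
    (∀ i j, i ≠ j → ¬ G.Adj i j → (Matrix.of A)⁻¹ i j = 0) ∧
    (∀ i j, i ≠ j → ¬ H.Adj i j → A i j = 0)}

/-- the number `|E_G ∩ E_H|` of common edges -/
def numCommon : ℕ :=
  (Finset.univ.filter (fun p : Fin n × Fin n => p.1 < p.2 ∧ G.Adj p.1 p.2 ∧ H.Adj p.1 p.2)).card

/-- `T` has dimension at least `d`: it contains the image of an open set `U ⊆ ℝ^d` under a `C¹`
map whose derivative is injective at some point of `U`. (For a semialgebraic set `T` this says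
exactly that its dimension as a semialgebraic set is at least `d`.) -/
def DimGE {n : ℕ} (T : Set (Fin n → Fin n → ℝ)) (d : ℕ) : Prop :=
  ∃ (U : Set (Fin d → ℝ)) (γ : (Fin d → ℝ) → (Fin n → Fin n → ℝ)), IsOpen U ∧
    ContDiffOn ℝ 1 γ U ∧ (∀ y ∈ U, γ y ∈ T) ∧
    ∃ y ∈ U, Function.Injective (fderiv ℝ γ y)

/-- coordinates of a matrix -/
def co (A : Fin n → Fin n → ℝ) : PH H → ℝ := fun p => A p.1.1 p.1.2

lemma card_PF : Fintype.card (PF G H) = numCommon G H := by
  unfold numCommon
  rw [← Fintype.card_subtype]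
  refine Fintype.card_congr ⟨fun q => ⟨q.1.1, q.1.2.1, q.2, q.1.2.2⟩,
    fun p => ⟨⟨p.1, p.2.1, p.2.2.2⟩, p.2.2.1⟩, fun q => rfl, fun p => rfl⟩

lemma co_S (A : Fin n → Fin n → ℝ) (hA : A ∈ CorrModel G H) :
    S H (co H A) = Matrix.of A := by
  obtain ⟨hpd, hd, -, hs⟩ := hA
  unfold S
  have h1 : L H (fun p => (Matrix.of A - 1) p.1.1 p.1.2) = Matrix.of A - 1 := by
    apply L_of
    · rw [Matrix.transpose_sub, psymm hpd, Matrix.transpose_one]
    · intro i
      rw [Matrix.sub_apply, Matrix.of_apply, hd, Matrix.one_apply_eq, sub_self]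
    · intro i j hij hH
      rw [Matrix.sub_apply, Matrix.of_apply, hs i j hij hH, Matrix.one_apply_ne hij, sub_self]
  have h2 : co H A = fun p : PH H => (Matrix.of A - 1) p.1.1 p.1.2 := by
    funext p
    rw [Matrix.sub_apply, Matrix.one_apply_ne p.2.1.ne, sub_zero]
    rfl
  rw [h2, h1]
  abel

lemma co_N (A : Fin n → Fin n → ℝ) (hA : A ∈ CorrModel G H) : co H A ∈ N G H := by
  refine ⟨?_, ?_⟩
  · rw [co_S G H A hA]; exact hA.1
  · intro p hp
    rw [co_S G H A hA]
    exact hA.2.2.1 _ _ p.2.1.ne hp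

/-- a point of `N` is in the model iff the entries of the inverse vanish at the pairs that are
edges of neither graph -/
lemma mem_model (x : PH H → ℝ) (hx : x ∈ N G H)
    (hU : ∀ i j, i ≠ j → ¬ G.Adj i j → ¬ H.Adj i j → (S H x)⁻¹ i j = 0) :
    (fun i j => S H x i j) ∈ CorrModel G H := by
  refine ⟨hx.1, S_diag H x, ?_, ?_⟩
  · intro i j hij hG
    by_cases hH : H.Adj i j
    · exact N_inv G H x hx hH hG
    · exact hU i j hij hG hH
  · intro i j hij hH
    exact S_nonadj H x hij hH

/-- full dimension forces the inverse entries to vanish near a point of `C` -/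
lemma near_zero (h : DimGE (CorrModel G H) (numCommon G H)) :
    ∃ a0 ∈ C G H, ∀ᶠ a in 𝓝 a0, ∀ i j, i ≠ j → ¬ G.Adj i j → ¬ H.Adj i j →
      (S H (psi G H a))⁻¹ i j = 0 := by
  obtain ⟨U, γ, hU, hγ, hγM, y0, hy0, hinj⟩ := h
  have hγd : HasStrictFDerivAt γ (fderiv ℝ γ y0) y0 :=
    ((hγ.contDiffAt (hU.mem_nhds hy0)).hasStrictFDerivAt (by norm_num))
  -- coordinates
  let coL : (Fin n → Fin n → ℝ) →L[ℝ] (PH H → ℝ) :=
    LinearMap.toContinuousLinearMap
      { toFun := co H
        map_add' := fun _ _ => rfl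
        map_smul' := fun _ _ => rfl }
  let resL : (PH H → ℝ) →L[ℝ] (PF G H → ℝ) :=
    LinearMap.toContinuousLinearMap
      { toFun := res G H
        map_add' := fun _ _ => rfl
        map_smul' := fun _ _ => rfl }
  have hξ : HasStrictFDerivAt (fun y => co H (γ y)) (coL.comp (fderiv ℝ γ y0)) y0 :=
    (coL.hasStrictFDerivAt).comp y0 hγd
  have hη : HasStrictFDerivAt (fun y => res G H (co H (γ y)))
      (resL.comp (coL.comp (fderiv ℝ γ y0))) y0 :=
    (resL.hasStrictFDerivAt).comp y0 hξ
  have hx0N : co H (γ y0) ∈ N G H := co_N G H _ (hγM y0 hy0)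
  have hA : AnalyticAt ℝ (Phi G H) (co H (γ y0)) := Phi_analytic G H _ hx0N.1.det_pos.ne'
  have hfd : HasFDerivAt (Phi G H) (fderiv ℝ (Phi G H) (co H (γ y0))) (co H (γ y0)) :=
    hA.differentiableAt.hasFDerivAt
  have hker : ∀ v, (resL.comp (coL.comp (fderiv ℝ γ y0))) v = 0 → v = 0 := by
    intro v hv
    -- Phi (co (γ y)) = ext (res (co (γ y)))
    have h1 : HasFDerivAt (fun y => Phi G H (co H (γ y)))
        ((fderiv ℝ (Phi G H) (co H (γ y0))).comp (coL.comp (fderiv ℝ γ y0))) y0 :=
      HasFDerivAt.comp (g := Phi G H) (f := fun y => co H (γ y)) y0 hfd hξ.hasFDerivAt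
    let extL : (PF G H → ℝ) →L[ℝ] (PH H → ℝ) :=
      LinearMap.toContinuousLinearMap
        { toFun := ext G H
          map_add' := by
            intro a b
            funext p
            unfold ext
            simp only [Pi.add_apply]
            split_ifs <;> simp
          map_smul' := by
            intro c b
            funext p
            unfold ext
            simp only [Pi.smul_apply, smul_eq_mul, RingHom.id_apply]
            split_ifs <;> simp }
    have h2 : HasFDerivAt (fun y => ext G H (res G H (co H (γ y))))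
        (extL.comp (resL.comp (coL.comp (fderiv ℝ γ y0)))) y0 :=
      (extL.hasFDerivAt).comp y0 hη.hasFDerivAt
    have h3 : (fun y => Phi G H (co H (γ y))) =ᶠ[𝓝 y0]
        fun y => ext G H (res G H (co H (γ y))) := by
      filter_upwards [hU.mem_nhds hy0] with y hy
      exact Phi_N G H _ (co_N G H _ (hγM y hy))
    have h4 := (h2.congr_of_eventuallyEq h3).unique h1
    have h5 := congrArg (fun F => F v) h4
    simp only [ContinuousLinearMap.comp_apply] at h5 hv
    rw [hv, map_zero] at h5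
    have h6 := dPhi_inj G H _ hx0N.1 _ hfd _ h5.symm
    -- so the coordinates of the derivative vanish; hence the derivative itself
    have h7 : HasDerivAt (fun s : ℝ => γ (y0 + s • v)) (fderiv ℝ γ y0 v) 0 := by
      have hl : HasDerivAt (fun s : ℝ => y0 + s • v) v 0 := by
        have h1 : HasDerivAt (fun s : ℝ => s • v) ((1 : ℝ) • v) 0 :=
          (hasDerivAt_id (0 : ℝ)).smul_const v
        rw [one_smul] at h1
        exact h1.const_add y0
      have hf0 : HasFDerivAt γ (fderiv ℝ γ y0) (y0 + (0 : ℝ) • v) := by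
        simpa using hγd.hasFDerivAt
      have := HasFDerivAt.comp_hasDerivAt (f := fun s : ℝ => y0 + s • v) (0 : ℝ) hf0 hl
      exact this
    have h8 : ∀ i j, fderiv ℝ γ y0 v i j = L H (coL (fderiv ℝ γ y0 v)) i j := by
      intro i j
      have hd1 : HasDerivAt (fun s : ℝ => γ (y0 + s • v) i j) (fderiv ℝ γ y0 v i j) 0 :=
        hasDerivAt_pi.mp (hasDerivAt_pi.mp h7 i) j
      have hev : ∀ᶠ s : ℝ in 𝓝 0, y0 + s • v ∈ U := by
        have hc : Continuous (fun s : ℝ => y0 + s • v) := by fun_prop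
        apply hc.continuousAt.eventually
        simpa using hU.mem_nhds hy0
      have hev2 : (fun s : ℝ => γ (y0 + s • v) i j) =ᶠ[𝓝 0]
          fun s => (1 : Matrix (Fin n) (Fin n) ℝ) i j + L H (co H (γ (y0 + s • v))) i j := by
        filter_upwards [hev] with s hs
        have := co_S G H _ (hγM _ hs)
        have := congrFun (congrFun this i) j
        rw [Matrix.of_apply] at this
        rw [← this]; rfl
      have hd2 : HasDerivAt (fun s : ℝ => (1 : Matrix (Fin n) (Fin n) ℝ) i j +
          L H (co H (γ (y0 + s • v))) i j) (L H (coL (fderiv ℝ γ y0 v)) i j) 0 := by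
        apply HasDerivAt.const_add
        have hp : ∀ p : PH H, HasDerivAt (fun s : ℝ => co H (γ (y0 + s • v)) p)
            (coL (fderiv ℝ γ y0 v) p) 0 := fun p =>
          hasDerivAt_pi.mp (hasDerivAt_pi.mp h7 p.1.1) p.1.2
        unfold L
        split_ifs with c1 c2
        · exact hp _
        · exact hp _
        · exact hasDerivAt_const _ _
      exact hd1.unique (hd2.congr_of_eventuallyEq hev2)
    have h9 : fderiv ℝ γ y0 v = 0 := by
      funext i j
      rw [h8, h6]
      have : L H 0 = 0 := by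
        have := L_smul H 0 0
        simpa using this
      rw [this]; rfl
    have h10 : fderiv ℝ γ y0 v = fderiv ℝ γ y0 0 := by rw [h9, map_zero]
    exact hinj h10
  -- surjectivity by dimension count
  have hcard : Module.finrank ℝ (Fin (numCommon G H) → ℝ) = Module.finrank ℝ (PF G H → ℝ) := by
    rw [Module.finrank_fin_fun, Module.finrank_fintype_fun_eq_card, card_PF]
  have hsurj : Function.Surjective (resL.comp (coL.comp (fderiv ℝ γ y0))) := by
    have h1 : Function.Injective ((resL.comp (coL.comp (fderiv ℝ γ y0)) :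
        (Fin (numCommon G H) → ℝ) →L[ℝ] (PF G H → ℝ)) :
        (Fin (numCommon G H) → ℝ) →ₗ[ℝ] (PF G H → ℝ)) := by
      rw [← LinearMap.ker_eq_bot, LinearMap.ker_eq_bot']
      exact hker
    exact (LinearMap.injective_iff_surjective_of_finrank_eq_finrank hcard).mp h1
  have hmap : Filter.map (fun y => res G H (co H (γ y))) (𝓝 y0) =
      𝓝 (res G H (co H (γ y0))) :=
    hη.map_nhds_eq_of_surj (LinearMap.range_eq_top.mpr hsurj)
  refine ⟨res G H (co H (γ y0)), ⟨_, hx0N, rfl⟩, ?_⟩
  rw [← hmap, Filter.eventually_map]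
  filter_upwards [hU.mem_nhds hy0] with y hy i j hij hG hH
  rw [psi_res G H _ (co_N G H _ (hγM y hy)), co_S G H _ (hγM y hy)]
  exact (hγM y hy).2.2.1 i j hij hG

/-- Near the point `A` the set `T` is a smooth embedded submanifold of dimension `d`: for an open
neighbourhood `U` of `A`, the set `T ∩ U` is the image of an open set `W ⊆ ℝ^d` under a `C^∞` map
`ψ` which has a `C^∞` left inverse `r` defined on `U`. -/
def SmoothAt {n : ℕ} (T : Set (Fin n → Fin n → ℝ)) (A : Fin n → Fin n → ℝ) (d : ℕ) : Prop :=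
  ∃ (U : Set (Fin n → Fin n → ℝ)) (W : Set (Fin d → ℝ))
    (ψ : (Fin d → ℝ) → (Fin n → Fin n → ℝ)) (r : (Fin n → Fin n → ℝ) → (Fin d → ℝ)),
    IsOpen U ∧ A ∈ U ∧ IsOpen W ∧ ContDiffOn ℝ (⊤ : ℕ∞) ψ W ∧ ContDiffOn ℝ (⊤ : ℕ∞) r U ∧
    ψ '' W = T ∩ U ∧ ∀ w ∈ W, r (ψ w) = w

/-- `T` is a smooth embedded submanifold of dimension `d` (of the space of `n × n` matrices). -/
def IsSmooth {n : ℕ} (T : Set (Fin n → Fin n → ℝ)) (d : ℕ) : Prop :=
  ∀ A ∈ T, SmoothAt T A d

/-- The Zariski closure of `T` is irreducible: `T` is non-empty and if the product of two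
polynomials in the matrix entries vanishes on `T` then one of the two vanishes on `T`. (For a set
of symmetric matrices it makes no difference whether the closure is taken among all matrices or
among the symmetric ones: polynomials on the latter are restrictions of polynomials on the
former.) -/
def ZIrreducible {n : ℕ} (T : Set (Fin n → Fin n → ℝ)) : Prop :=
  T.Nonempty ∧ ∀ f g : MvPolynomial (Fin n × Fin n) ℝ,
    (∀ A ∈ T, MvPolynomial.eval (fun p => A p.1 p.2) (f * g) = 0) →
    (∀ A ∈ T, MvPolynomial.eval (fun p => A p.1 p.2) f = 0) ∨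
    (∀ A ∈ T, MvPolynomial.eval (fun p => A p.1 p.2) g = 0)

/-- the matrix with given entries at the common edges -/
def Psi (a : PF G H → ℝ) : Fin n → Fin n → ℝ := fun i j => S H (psi G H a) i j

lemma Psi_analytic : AnalyticOnNhd ℝ (Psi G H) (C G H) := by
  intro a ha
  apply AnalyticAt.pi
  intro i
  apply AnalyticAt.pi
  intro j
  have := AnalyticAt.comp (g := fun x => S H x i j) (f := psi G H) (x := a)
    (S_analytic H _ i j) (psi_analytic G H a ha)
  exact this

lemma Psi_image (h : DimGE (CorrModel G H) (numCommon G H)) :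
    Psi G H '' (C G H) = CorrModel G H := by
  obtain ⟨a0, ha0, hnear⟩ := near_zero G H h
  have hzero : ∀ i j, i ≠ j → ¬ G.Adj i j → ¬ H.Adj i j → ∀ a ∈ C G H,
      (S H (psi G H a))⁻¹ i j = 0 := by
    intro i j hij hG hH
    have h1 := (inv_psi_analytic G H i j).eqOn_zero_of_preconnected_of_eventuallyEq_zero
      (C_preconnected G H) ha0 (by
        filter_upwards [hnear] with a ha
        exact ha i j hij hG hH)
    intro a ha
    exact h1 ha
  ext A
  constructor
  · rintro ⟨a, ha, rfl⟩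
    exact mem_model G H _ (psi_mem G H a ha).1 (fun i j hij hG hH => hzero i j hij hG hH a ha)
  · intro hA
    refine ⟨res G H (co H A), ⟨_, co_N G H A hA, rfl⟩, ?_⟩
    funext i j
    unfold Psi
    rw [psi_res G H _ (co_N G H A hA), co_S G H A hA]
    rfl

lemma res_co_Psi (a : PF G H → ℝ) (ha : a ∈ C G H) : res G H (co H (Psi G H a)) = a := by
  have h1 : co H (Psi G H a) = psi G H a := by
    funext p
    exact S_apply H _ p
  rw [h1]
  exact (psi_mem G H a ha).2

theorem smooth_of_dim (h : DimGE (CorrModel G H) (numCommon G H)) :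
    IsSmooth (CorrModel G H) (numCommon G H) := by
  let e : PF G H ≃ Fin (numCommon G H) := Fintype.equivFinOfCardEq (card_PF G H)
  let E : (Fin (numCommon G H) → ℝ) →L[ℝ] (PF G H → ℝ) :=
    LinearMap.toContinuousLinearMap
      { toFun := fun w q => w (e q)
        map_add' := fun _ _ => rfl
        map_smul' := fun _ _ => rfl }
  let R : (Fin n → Fin n → ℝ) →L[ℝ] (Fin (numCommon G H) → ℝ) :=
    LinearMap.toContinuousLinearMap
      { toFun := fun A k => res G H (co H A) (e.symm k)
        map_add' := fun _ _ => rfl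
        map_smul' := fun _ _ => rfl }
  intro A hA
  refine ⟨Set.univ, E ⁻¹' (C G H), fun w => Psi G H (E w), R, isOpen_univ, Set.mem_univ _,
    (C_open G H).preimage E.continuous, ?_, R.contDiff.contDiffOn, ?_, ?_⟩
  · intro w hw
    have h1 : AnalyticAt ℝ (fun w => Psi G H (E w)) w :=
      AnalyticAt.comp (g := Psi G H) (f := fun w => E w) (x := w)
        (Psi_analytic G H (E w) hw) (E.analyticAt w)
    exact h1.contDiffAt.contDiffWithinAt
  · rw [Set.inter_univ, ← Psi_image G H h]
    ext B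
    constructor
    · rintro ⟨w, hw, rfl⟩
      exact ⟨E w, hw, rfl⟩
    · rintro ⟨a, ha, rfl⟩
      have h1 : E (fun k => a (e.symm k)) = a := by
        funext q
        show a (e.symm (e q)) = a q
        rw [Equiv.symm_apply_apply]
      refine ⟨fun k => a (e.symm k), ?_, ?_⟩
      · show E (fun k => a (e.symm k)) ∈ C G H
        rw [h1]; exact ha
      · show Psi G H (E (fun k => a (e.symm k))) = Psi G H a
        rw [h1]
  · intro w hw
    funext k
    show res G H (co H (Psi G H (E w))) (e.symm k) = w k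
    rw [res_co_Psi G H (E w) hw]
    show w (e (e.symm k)) = w k
    rw [Equiv.apply_symm_apply]

lemma one_mem_model : (fun i j => (1 : Matrix (Fin n) (Fin n) ℝ) i j) ∈ CorrModel G H := by
  have h1 : Matrix.of (fun i j => (1 : Matrix (Fin n) (Fin n) ℝ) i j) = 1 := rfl
  refine ⟨?_, ?_, ?_, ?_⟩
  · rw [h1]; exact Matrix.PosDef.one
  · intro i; exact Matrix.one_apply_eq i
  · intro i j hij _
    rw [h1, inv_one, Matrix.one_apply_ne hij]
  · intro i j hij _
    exact Matrix.one_apply_ne hij

theorem connected_of_dim (h : DimGE (CorrModel G H) (numCommon G H)) :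
    IsConnected (CorrModel G H) := by
  refine ⟨⟨_, one_mem_model G H⟩, ?_⟩
  rw [← Psi_image G H h]
  exact (C_preconnected G H).image _ (Psi_analytic G H).continuousOn

theorem irreducible_of_dim (h : DimGE (CorrModel G H) (numCommon G H)) :
    ZIrreducible (CorrModel G H) := by
  refine ⟨⟨_, one_mem_model G H⟩, ?_⟩
  intro f g hfg
  have hpoly : ∀ p : MvPolynomial (Fin n × Fin n) ℝ, AnalyticOnNhd ℝ
      (fun a => MvPolynomial.eval (fun q => Psi G H a q.1 q.2) p) (C G H) := by
    intro p a ha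
    have hent : ∀ q : Fin n × Fin n, AnalyticAt ℝ (fun a => Psi G H a q.1 q.2) a := by
      intro q
      have := AnalyticAt.comp (g := fun x => S H x q.1 q.2) (f := psi G H) (x := a)
        (S_analytic H _ q.1 q.2) (psi_analytic G H a ha)
      exact this
    induction p using MvPolynomial.induction_on with
    | C c => simpa using analyticAt_const
    | add p q hp hq => simp only [map_add]; exact hp.fun_add hq
    | mul_X p i hp => simp only [map_mul, MvPolynomial.eval_X]; exact hp.fun_mul (hent i)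
  have himg := Psi_image G H h
  by_cases hf : ∀ a ∈ C G H, MvPolynomial.eval (fun q => Psi G H a q.1 q.2) f = 0
  · left
    intro A hA
    rw [← himg] at hA
    obtain ⟨a, ha, rfl⟩ := hA
    exact hf a ha
  · right
    push Not at hf
    obtain ⟨a0, ha0, hf0⟩ := hf
    have h1 : ∀ᶠ a in 𝓝 a0, MvPolynomial.eval (fun q => Psi G H a q.1 q.2) f ≠ 0 :=
      (hpoly f a0 ha0).continuousAt.eventually_ne hf0
    have h2 : ∀ᶠ a in 𝓝 a0, MvPolynomial.eval (fun q => Psi G H a q.1 q.2) g = 0 := by
      filter_upwards [h1, (C_open G H).mem_nhds ha0] with a ha haC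
      have hmem : Psi G H a ∈ CorrModel G H := by
        rw [← himg]; exact ⟨a, haC, rfl⟩
      have h3 := hfg _ hmem
      rw [map_mul] at h3
      exact (mul_eq_zero.mp h3).resolve_left ha
    have h3 := (hpoly g).eqOn_zero_of_preconnected_of_eventuallyEq_zero
      (C_preconnected G H) ha0 h2
    intro A hA
    rw [← himg] at hA
    obtain ⟨a, ha, rfl⟩ := hA
    exact h3 ha

lemma S_zero : S H 0 = 1 := by
  unfold S
  have : L H 0 = 0 := by
    have := L_smul H 0 0
    simpa using this
  rw [this, add_zero]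

lemma line_mem (q : PF G H) : ∀ᶠ t : ℝ in 𝓝 0,
    (fun i j => S H (t • (Pi.single q.1 1 : PH H → ℝ)) i j) ∈ CorrModel G H := by
  have hc : Continuous (fun t : ℝ => t • (Pi.single q.1 1 : PH H → ℝ)) := by fun_prop
  have h1 : ∀ᶠ x in 𝓝 (0 : PH H → ℝ), (S H x).PosDef :=
    posDef_near H 0 (by rw [S_zero]; exact Matrix.PosDef.one)
  have h2 : ∀ᶠ t : ℝ in 𝓝 0, (S H (t • (Pi.single q.1 1 : PH H → ℝ))).PosDef := by
    have h3 : ∀ᶠ x in 𝓝 ((fun t : ℝ => t • (Pi.single q.1 1 : PH H → ℝ)) 0),
        (S H x).PosDef := by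
      simpa only [zero_smul] using h1
    exact hc.continuousAt.eventually h3
  filter_upwards [h2] with t ht
  set x : PH H → ℝ := t • (Pi.single q.1 1) with hx
  have hx0 : ∀ p : PH H, p ≠ q.1 → x p = 0 := by
    intro p hp
    rw [hx, Pi.smul_apply, Pi.single_eq_of_ne hp, smul_zero]
  have hS0 : ∀ a k, a ≠ k → a ≠ q.1.1.1 → a ≠ q.1.1.2 → S H x a k = 0 := by
    intro a k hak ha1 ha2
    by_cases hH : H.Adj a k
    · rcases lt_or_gt_of_ne hak with h | h
      · have := S_apply H x ⟨(a, k), h, hH⟩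
        simp only at this
        rw [this]
        apply hx0
        intro he
        apply ha1
        rw [← he]
      · have := S_apply H x ⟨(k, a), h, hH.symm⟩
        simp only at this
        rw [S_comm, this]
        apply hx0
        intro he
        apply ha2
        rw [← he]
    · exact S_nonadj H x hak hH
  have hinv0 : ∀ a b, a ≠ b → a ≠ q.1.1.1 → a ≠ q.1.1.2 → (S H x)⁻¹ a b = 0 := by
    intro a b hab ha1 ha2
    have h3 : (S H x * (S H x)⁻¹) a b = 0 := by
      rw [Matrix.mul_nonsing_inv _ ht.det_pos.ne'.isUnit, Matrix.one_apply_ne hab]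
    rw [Matrix.mul_apply, Finset.sum_eq_single a, S_diag, one_mul] at h3
    · exact h3
    · intro k _ hk
      rw [hS0 a k hk.symm ha1 ha2, zero_mul]
    · intro h; exact absurd (Finset.mem_univ _) h
  refine ⟨ht, S_diag H x, ?_, fun i j hij h => S_nonadj H x hij h⟩
  intro a b hab hG
  show (S H x)⁻¹ a b = 0
  by_cases ha : a ≠ q.1.1.1 ∧ a ≠ q.1.1.2
  · exact hinv0 a b hab ha.1 ha.2
  by_cases hb : b ≠ q.1.1.1 ∧ b ≠ q.1.1.2
  · rw [Sinv_comm H x ht]
    exact hinv0 b a hab.symm hb.1 hb.2
  exfalso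
  have hq := q.2
  rw [not_and_or, not_not, not_not] at ha hb
  rcases ha with ha | ha <;> rcases hb with hb | hb
  · exact hab (ha.trans hb.symm)
  · rw [ha, hb] at hG; exact hG hq
  · rw [ha, hb] at hG; exact hG hq.symm
  · exact hab (ha.trans hb.symm)

lemma ext_single (q : PF G H) : ext G H (Pi.single q 1) = (Pi.single q.1 1 : PH H → ℝ) := by
  funext p
  unfold ext
  by_cases hp : p = q.1
  · subst hp
    rw [dif_pos q.2]
    simp
  · rw [Pi.single_eq_of_ne hp]
    split_ifs with h
    · rw [Pi.single_eq_of_ne]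
      intro h2
      apply hp
      rw [← h2]
    · rfl

theorem dim_of_smooth (d : ℕ)
    (h : SmoothAt (CorrModel G H) (fun i j => (1 : Matrix (Fin n) (Fin n) ℝ) i j) d) :
    DimGE (CorrModel G H) (numCommon G H) := by
  obtain ⟨U, V, ψ, r, hU, h1U, hV, hψ, hr, him, hrψ⟩ := h
  set I : Fin n → Fin n → ℝ := fun i j => (1 : Matrix (Fin n) (Fin n) ℝ) i j with hI
  obtain ⟨w0, hw0, hw0I⟩ : I ∈ ψ '' V := by rw [him]; exact ⟨one_mem_model G H, h1U⟩
  have hrI : r I = w0 := by rw [← hw0I]; exact hrψ w0 hw0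
  have hψd : HasFDerivAt ψ (fderiv ℝ ψ w0) w0 :=
    ((hψ.contDiffAt (hV.mem_nhds hw0)).differentiableAt (by simp)).hasFDerivAt
  have hrd : HasFDerivAt r (fderiv ℝ r I) I :=
    ((hr.contDiffAt (hU.mem_nhds h1U)).differentiableAt (by simp)).hasFDerivAt
  let LL : (PF G H → ℝ) →L[ℝ] (Fin n → Fin n → ℝ) :=
    LinearMap.toContinuousLinearMap
      { toFun := fun a => fun i j => L H (ext G H a) i j
        map_add' := by
          intro a b
          have h1 : ext G H (a + b) = ext G H a + ext G H b := by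
            funext p
            unfold ext
            simp only [Pi.add_apply]
            split_ifs <;> simp
          funext i j
          rw [h1, L_add]
          rfl
        map_smul' := by
          intro c b
          have h1 : ext G H (c • b) = c • ext G H b := by
            funext p
            unfold ext
            simp only [Pi.smul_apply, smul_eq_mul]
            split_ifs <;> simp
          funext i j
          rw [h1, L_smul]
          rfl }
  have hkey : ∀ q : PF G H,
      fderiv ℝ ψ w0 (fderiv ℝ r I (LL (Pi.single q 1))) = LL (Pi.single q 1) := by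
    intro q
    have hline : HasDerivAt (fun t : ℝ => I + t • LL (Pi.single q 1)) (LL (Pi.single q 1)) 0 := by
      have h1 : HasDerivAt (fun s : ℝ => s • LL (Pi.single q 1))
          ((1 : ℝ) • LL (Pi.single q 1)) 0 := (hasDerivAt_id (0 : ℝ)).smul_const _
      rw [one_smul] at h1
      exact h1.const_add I
    have hmem : ∀ᶠ t : ℝ in 𝓝 0, I + t • LL (Pi.single q 1) ∈ CorrModel G H := by
      filter_upwards [line_mem G H q] with t ht
      have e1 : I + t • LL (Pi.single q 1) =
          (fun i j => S H (t • (Pi.single q.1 1 : PH H → ℝ)) i j) := by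
        funext i j
        show (1 : Matrix (Fin n) (Fin n) ℝ) i j + t * L H (ext G H (Pi.single q 1)) i j = _
        rw [ext_single]
        unfold S
        rw [L_smul, Matrix.add_apply, Matrix.smul_apply, smul_eq_mul]
      rw [e1]
      exact ht
    have hmemU : ∀ᶠ t : ℝ in 𝓝 0, I + t • LL (Pi.single q 1) ∈ U := by
      apply hline.continuousAt.eventually
      simpa using hU.mem_nhds h1U
    have h1 : (fun t : ℝ => I + t • LL (Pi.single q 1)) =ᶠ[𝓝 0]
        fun t : ℝ => ψ (r (I + t • LL (Pi.single q 1))) := by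
      filter_upwards [hmem, hmemU] with t ht1 ht2
      have h2 : I + t • LL (Pi.single q 1) ∈ ψ '' V := by rw [him]; exact ⟨ht1, ht2⟩
      obtain ⟨w, hw, hw2⟩ := h2
      rw [← hw2, hrψ w hw]
    have hrd0 : HasFDerivAt r (fderiv ℝ r I) (I + (0 : ℝ) • LL (Pi.single q 1)) := by
      simpa using hrd
    have h2 : HasDerivAt (fun t : ℝ => r (I + t • LL (Pi.single q 1)))
        (fderiv ℝ r I (LL (Pi.single q 1))) 0 :=
      HasFDerivAt.comp_hasDerivAt (f := fun t : ℝ => I + t • LL (Pi.single q 1)) (0 : ℝ)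
        hrd0 hline
    have hψd0 : HasFDerivAt ψ (fderiv ℝ ψ w0) (r (I + (0 : ℝ) • LL (Pi.single q 1))) := by
      simpa [hrI] using hψd
    have h3 : HasDerivAt (fun t : ℝ => ψ (r (I + t • LL (Pi.single q 1))))
        (fderiv ℝ ψ w0 (fderiv ℝ r I (LL (Pi.single q 1)))) 0 :=
      HasFDerivAt.comp_hasDerivAt (f := fun t : ℝ => r (I + t • LL (Pi.single q 1))) (0 : ℝ)
        hψd0 h2
    exact (h3.congr_of_eventuallyEq h1).unique hline
  have hkey2 : ∀ a, fderiv ℝ ψ w0 (fderiv ℝ r I (LL a)) = LL a := by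
    intro a
    have h1 : a = ∑ q, a q • (Pi.single q 1 : PF G H → ℝ) := by
      funext p
      rw [Finset.sum_apply]
      simp [Pi.single_apply]
    rw [h1]
    simp only [map_sum, map_smul, hkey]
  let e : PF G H ≃ Fin (numCommon G H) := Fintype.equivFinOfCardEq (card_PF G H)
  let E : (Fin (numCommon G H) → ℝ) →L[ℝ] (PF G H → ℝ) :=
    LinearMap.toContinuousLinearMap
      { toFun := fun w q => w (e q)
        map_add' := fun _ _ => rfl
        map_smul' := fun _ _ => rfl }
  let M : (Fin (numCommon G H) → ℝ) →L[ℝ] (Fin d → ℝ) := (fderiv ℝ r I).comp (LL.comp E)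
  have hMc : Continuous (fun y => w0 + M y) := by fun_prop
  have hMd : ContDiff ℝ 1 (fun y => w0 + M y) := contDiff_const.add M.contDiff
  refine ⟨(fun y => w0 + M y) ⁻¹' V, fun y => ψ (w0 + M y), hV.preimage hMc, ?_, ?_, 0, ?_, ?_⟩
  · have h1 : ContDiffOn ℝ 1 ψ V := hψ.of_le (by exact_mod_cast le_top)
    exact h1.comp hMd.contDiffOn (fun y hy => hy)
  · intro y hy
    have h1 : ψ (w0 + M y) ∈ CorrModel G H ∩ U := by
      rw [← him]; exact ⟨_, hy, rfl⟩
    exact h1.1
  · show w0 + M 0 ∈ V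
    rw [map_zero, add_zero]; exact hw0
  · have h1 : HasFDerivAt (fun y => w0 + M y) M 0 := M.hasFDerivAt.const_add w0
    have hψd0 : HasFDerivAt ψ (fderiv ℝ ψ w0) (w0 + M 0) := by
      rw [map_zero, add_zero]; exact hψd
    have h2 : HasFDerivAt (fun y => ψ (w0 + M y)) ((fderiv ℝ ψ w0).comp M) 0 :=
      HasFDerivAt.comp (g := ψ) (f := fun y => w0 + M y) 0 hψd0 h1
    rw [h2.fderiv]
    intro y y' hyy
    have h3 : LL (E y) = LL (E y') := by
      have h4 : fderiv ℝ ψ w0 (fderiv ℝ r I (LL (E y))) =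
          fderiv ℝ ψ w0 (fderiv ℝ r I (LL (E y'))) := hyy
      rwa [hkey2, hkey2] at h4
    funext k
    have h5 := congrFun (congrFun h3 (e.symm k).1.1.1) (e.symm k).1.1.2
    have h6 : ∀ z : Fin (numCommon G H) → ℝ,
        LL (E z) (e.symm k).1.1.1 (e.symm k).1.1.2 = z k := by
      intro z
      show L H (ext G H (E z)) (e.symm k).1.1.1 (e.symm k).1.1.2 = z k
      rw [L_apply]
      unfold ext
      rw [dif_pos (e.symm k).2]
      show z (e (e.symm k)) = z k
      rw [Equiv.apply_symm_apply]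
    rw [h6, h6] at h5
    exact h5

/-- **Q2 is true**: for all graphs `G`, `H`, if `M₁(G,H)` is a smooth embedded submanifold (of
some dimension `d`) then its Zariski closure is irreducible. In fact it is enough that `M₁(G,H)`
is a smooth embedded submanifold near the identity matrix; then it is everywhere a smooth
embedded submanifold, of dimension `|E_G ∩ E_H|`, it is connected and its Zariski closure is
irreducible. -/
theorem result (n : ℕ) (G H : SimpleGraph (Fin n)) :
    ((∃ d, IsSmooth (CorrModel G H) d) → ZIrreducible (CorrModel G H)) ∧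
    ((∃ d, SmoothAt (CorrModel G H) (fun i j => if i = j then 1 else 0) d) →
      IsSmooth (CorrModel G H) (numCommon G H) ∧ IsConnected (CorrModel G H) ∧
        ZIrreducible (CorrModel G H)) := by
  refine ⟨?_, ?_⟩
  · rintro ⟨d, h⟩
    exact irreducible_of_dim G H (dim_of_smooth G H d (h _ (one_mem_model G H)))
  · rintro ⟨d, h⟩
    have h' : DimGE (CorrModel G H) (numCommon G H) := by
      apply dim_of_smooth G H d
      have e : (fun i j => (1 : Matrix (Fin n) (Fin n) ℝ) i j) =
          fun i j => if i = j then 1 else 0 := by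
        funext i j
        exact Matrix.one_apply
      rw [e]
      exact h
    exact ⟨smooth_of_dim G H h', connected_of_dim G H h', irreducible_of_dim G H h'⟩

end
end Pool.Agent.Results.MP_0a1f67_ag.SmoothIrreducible
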